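import Pool.Agent.Y514.LW.LtB

/-!
# Project LW, job LT: the lower tail of the truncated singular series
-/

set_option autoImplicit false

open Finset

namespace Pool.Agent.Y514.LW

open Polynomial
open Pool.Agent.TH892 (pol pol_natDegree_le)
open Pool.Agent.H300R2.BH (SS rho)

theorem one_sub_ge (x : ℝ) (h0 : 0 ≤ x) (h1 : x ≤ 1 / 2) : Real.exp (-(x + x ^ 2)) ≤ 1 - x := by
  rw [Real.exp_neg, inv_le_comm₀ (Real.exp_pos _) (by linarith)]
  have h2 := Real.quadratic_le_exp_of_nonneg (x := x + x ^ 2) (by positivity)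
  refine le_trans ?_ h2
  rw [inv_le_iff_one_le_mul₀ (by linarith)]
  have h3 : 0 ≤ x ^ 2 * (1 - x - x ^ 2 - x ^ 3) := by
    apply mul_nonneg (sq_nonneg x)
    nlinarith [mul_nonneg h0 h0, mul_nonneg h0 (mul_nonneg h0 h0)]
  nlinarith

/-- a factor at a large prime -/
theorem fac_large (p r j : ℕ) (hp : 2 * j + 2 ≤ p) (hr : r ≤ j) :
    Real.exp (-(((r : ℝ) - 1) / p + (j : ℝ) ^ 2 * (1 / (p : ℝ) ^ 2))) ≤
      (1 - (r : ℝ) / p) / (1 - 1 / (p : ℝ)) := by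
  have hpr : 2 * (j : ℝ) + 2 ≤ p := by exact_mod_cast hp
  have hj : (0 : ℝ) ≤ j := Nat.cast_nonneg _
  have hr0 : (0 : ℝ) ≤ r := Nat.cast_nonneg _
  have hrj : (r : ℝ) ≤ j := by exact_mod_cast hr
  have hp0 : (0 : ℝ) < p := by linarith
  have h1 : (r : ℝ) / p ≤ 1 / 2 := by
    rw [div_le_iff₀ hp0]
    linarith
  have h2 := one_sub_ge ((r : ℝ) / p) (by positivity) h1
  have h3 : 1 - 1 / (p : ℝ) ≤ Real.exp (-(1 / (p : ℝ))) := by
    have := Real.add_one_le_exp (-(1 / (p : ℝ)))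
    linarith
  have h4 : 0 < 1 - 1 / (p : ℝ) := by
    have : 1 / (p : ℝ) ≤ 1 / 2 := one_div_le_one_div_of_le (by norm_num) (by linarith)
    linarith
  rw [le_div_iff₀ h4]
  have h5 : Real.exp (-(((r : ℝ) - 1) / p + (j : ℝ) ^ 2 * (1 / (p : ℝ) ^ 2))) *
      (1 - 1 / (p : ℝ)) ≤ Real.exp (-(((r : ℝ) - 1) / p + (j : ℝ) ^ 2 * (1 / (p : ℝ) ^ 2))) *
      Real.exp (-(1 / (p : ℝ))) := mul_le_mul_of_nonneg_left h3 (Real.exp_pos _).le
  refine h5.trans (le_trans ?_ h2)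
  rw [← Real.exp_add]
  apply Real.exp_le_exp.2
  have e1 : -(((r : ℝ) - 1) / p + (j : ℝ) ^ 2 * (1 / (p : ℝ) ^ 2)) + -(1 / (p : ℝ)) =
      -((r : ℝ) / p + (j : ℝ) ^ 2 * (1 / (p : ℝ) ^ 2)) := by ring
  rw [e1]
  apply neg_le_neg
  have e2 : ((r : ℝ) / p) ^ 2 = (r : ℝ) ^ 2 * (1 / (p : ℝ) ^ 2) := by ring
  rw [e2]
  have h6 : (r : ℝ) ^ 2 * (1 / (p : ℝ) ^ 2) ≤ (j : ℝ) ^ 2 * (1 / (p : ℝ) ^ 2) :=
    mul_le_mul_of_nonneg_right (pow_le_pow_left₀ hr0 hrj 2) (by positivity)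
  linarith

/-- a factor at a small prime -/
theorem fac_small (p r w : ℕ) (hp : 2 ≤ p) (hpw : p ≤ w) (hr : r + 1 ≤ p) :
    1 / (w : ℝ) ≤ (1 - (r : ℝ) / p) / (1 - 1 / (p : ℝ)) := by
  have hp2 : (2 : ℝ) ≤ p := by exact_mod_cast hp
  have hp0 : (0 : ℝ) < p := by linarith
  have hrp : (r : ℝ) + 1 ≤ p := by exact_mod_cast hr
  have hw : (p : ℝ) ≤ w := by exact_mod_cast hpw
  have h1 : 1 / (p : ℝ) ≤ 1 / 2 := one_div_le_one_div_of_le (by norm_num) hp2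
  have h10 : 0 < 1 / (p : ℝ) := by positivity
  have h2 : 1 / (p : ℝ) ≤ 1 - (r : ℝ) / p := by
    have e : 1 - (r : ℝ) / p = (p - r) / p := by field_simp
    rw [e]
    exact div_le_div_of_nonneg_right (by linarith) hp0.le
  have h3 : 1 - (r : ℝ) / p ≤ (1 - (r : ℝ) / p) / (1 - 1 / (p : ℝ)) := by
    rw [le_div_iff₀ (by linarith)]
    nlinarith
  have h4 : 1 / (w : ℝ) ≤ 1 / p := one_div_le_one_div_of_le hp0 hw
  linarith

theorem SS_low (j w z : ℕ) (hw : 2 * j + 2 ≤ w) (F : ℤ[X]) (hF : F.natDegree ≤ j)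
    (h : ∀ p : ℕ, p.Prime → p ≤ z → rho F p ≠ p) :
    (1 / (w : ℝ)) ^ w * Real.exp (-(Yc w z F + (j : ℝ) ^ 2)) ≤ SS z F := by
  have hw1 : (1 : ℝ) ≤ w := by
    have : 1 ≤ w := by omega
    exact_mod_cast this
  unfold SS
  rw [← prod_filter_mul_prod_filter_not ((Icc 1 z).filter Nat.Prime) (fun p => p ≤ w)]
  have h1 : (1 / (w : ℝ)) ^ w ≤ ∏ p ∈ ((Icc 1 z).filter Nat.Prime).filter (fun p => p ≤ w),
      (1 - (rho F p : ℝ) / p) / (1 - 1 / (p : ℝ)) := by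
    have h2 : ∏ p ∈ ((Icc 1 z).filter Nat.Prime).filter (fun p => p ≤ w), (1 / (w : ℝ)) ≤
        ∏ p ∈ ((Icc 1 z).filter Nat.Prime).filter (fun p => p ≤ w),
      (1 - (rho F p : ℝ) / p) / (1 - 1 / (p : ℝ)) := by
      refine prod_le_prod (fun p _ => by positivity) fun p hp => ?_
      rw [mem_filter, mem_filter, mem_Icc] at hp
      obtain ⟨⟨⟨_, h3⟩, h4⟩, h5⟩ := hp
      refine fac_small p (rho F p) w h4.two_le h5 ?_
      have h6 := h p h4 h3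
      have h7 := Pool.Agent.H338R2.BH.rho_le_p F p
      omega
    refine le_trans ?_ h2
    rw [prod_const]
    refine pow_le_pow_of_le_one (by positivity) ?_ ?_
    · rw [div_le_one (by linarith)]
      exact hw1
    · have h3 : ((Icc 1 z).filter Nat.Prime).filter (fun p => p ≤ w) ⊆ Icc 1 w := by
        intro p hp
        rw [mem_filter, mem_filter, mem_Icc] at hp
        rw [mem_Icc]
        exact ⟨hp.1.1.1, hp.2⟩
      refine (card_le_card h3).trans ?_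
      rw [Nat.card_Icc]
      omega
  have hset : ((Icc 1 z).filter Nat.Prime).filter (fun p => ¬ p ≤ w) =
      (Ioc w z).filter Nat.Prime := by
    ext p
    simp only [mem_filter, mem_Icc, mem_Ioc]
    constructor
    · rintro ⟨⟨⟨h3, h4⟩, h5⟩, h6⟩
      exact ⟨⟨by omega, h4⟩, h5⟩
    · rintro ⟨⟨h3, h4⟩, h5⟩
      exact ⟨⟨⟨by omega, h4⟩, h5⟩, by omega⟩
  have h2 : Real.exp (-(Yc w z F + (j : ℝ) ^ 2)) ≤
      ∏ p ∈ ((Icc 1 z).filter Nat.Prime).filter (fun p => ¬ p ≤ w),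
      (1 - (rho F p : ℝ) / p) / (1 - 1 / (p : ℝ)) := by
    rw [hset]
    have h3 : ∏ p ∈ (Ioc w z).filter Nat.Prime,
        Real.exp (-(((rho F p : ℝ) - 1) / p + (j : ℝ) ^ 2 * (1 / (p : ℝ) ^ 2))) ≤
        ∏ p ∈ (Ioc w z).filter Nat.Prime, (1 - (rho F p : ℝ) / p) / (1 - 1 / (p : ℝ)) := by
      refine prod_le_prod (fun p _ => (Real.exp_pos _).le) fun p hp => ?_
      rw [mem_filter, mem_Ioc] at hp
      refine fac_large p (rho F p) j (by omega) ?_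
      exact Pool.Agent.H338R2.BH.rho_le_deg F p j hp.2 hF (h p hp.2 hp.1.2)
    refine le_trans ?_ h3
    rw [← Real.exp_sum]
    apply Real.exp_le_exp.2
    rw [sum_neg_distrib, sum_add_distrib, ← mul_sum]
    apply neg_le_neg
    have h4 := sum_sq w z (by omega)
    have h5 : (1 : ℝ) / w ≤ 1 := by
      rw [div_le_one (by linarith)]
      exact hw1
    have h6 : (j : ℝ) ^ 2 * ∑ p ∈ (Ioc w z).filter Nat.Prime, (1 : ℝ) / (p : ℝ) ^ 2 ≤
        (j : ℝ) ^ 2 * 1 := mul_le_mul_of_nonneg_left (h4.trans h5) (by positivity)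
    unfold Yc
    linarith
  exact mul_le_mul h1 h2 (Real.exp_pos _).le (le_trans (by positivity) h1)

open Classical in
theorem t_LT : Pool.Agent.Y871.LW.S_LT := by
  intro j hj η hη
  obtain ⟨w0, hw0⟩ := exists_nat_gt (2 * (2 * (j : ℝ) + 5) / η)
  set w : ℕ := max (2 * j + 2) w0 with hw
  have hw2 : 2 * j + 2 ≤ w := le_max_left _ _
  have hw1 : 1 ≤ w := by omega
  have hwr : (2 * (j : ℝ) + 5) / w ≤ η / 2 := by
    have h1 : (w0 : ℝ) ≤ w := by exact_mod_cast le_max_right _ _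
    have h2 : 2 * (2 * (j : ℝ) + 5) / η < w := lt_of_lt_of_le hw0 h1
    have hwp : (0 : ℝ) < w := by exact_mod_cast hw1
    rw [div_lt_iff₀ hη] at h2
    rw [div_le_iff₀ hwp]
    linarith
  refine ⟨(1 / (w : ℝ)) ^ w * Real.exp (-(1 + (j : ℝ) ^ 2)), ?_, ?_⟩
  · have : (0 : ℝ) < w := by exact_mod_cast hw1
    positivity
  intro E
  have hev : ∀ᶠ H : ℕ in Filter.atTop, Real.log H ^ (2 * E + 1) ≤ (H : ℝ) ^ (1 : ℝ) ∧
      6 / η ≤ Real.log H ∧ 1 ≤ Real.log H :=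
    (Pool.Agent.H442R2.EHI.evt_log_pow (2 * E + 1) 1 one_pos).and
      ((Pool.Agent.H442R2.EHI.evt_log_ge (6 / η)).and (Pool.Agent.H442R2.EHI.evt_log_ge 1))
  obtain ⟨H₀, hH₀⟩ := Filter.eventually_atTop.1 hev
  refine ⟨H₀, fun H hH => ?_⟩
  obtain ⟨h1, h2, h3⟩ := hH₀ H hH
  rw [Real.rpow_one] at h1
  set z : ℕ := ⌊Real.log H ^ E⌋₊ with hz
  have hl0 : 0 ≤ Real.log H := by linarith
  have hzr : (z : ℝ) ≤ Real.log H ^ E := Nat.floor_le (pow_nonneg hl0 _)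
  have hz2 : (z : ℝ) ^ 2 ≤ Real.log H ^ (2 * E) := by
    calc (z : ℝ) ^ 2 ≤ (Real.log H ^ E) ^ 2 := pow_le_pow_left₀ (Nat.cast_nonneg _) hzr 2
      _ = Real.log H ^ (2 * E) := by rw [← pow_mul, mul_comm]
  have hpp : 0 ≤ Real.log H ^ (2 * E) := pow_nonneg hl0 _
  have h4 : Real.log H ^ (2 * E) * Real.log H ≤ H := by rw [← pow_succ]; exact h1
  have hz3 : 6 * (z : ℝ) ^ 2 ≤ η * H := by
    have h5 : Real.log H ^ (2 * E) * (6 / η) ≤ Real.log H ^ (2 * E) * Real.log H :=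
      mul_le_mul_of_nonneg_left h2 hpp
    have h6 : Real.log H ^ (2 * E) * (6 / η) ≤ H := h5.trans h4
    rw [mul_div_assoc', div_le_iff₀ hη] at h6
    nlinarith
  have hzH : z ≤ H := by
    have h5 : (z : ℝ) ^ 2 ≤ H := by nlinarith
    have h6 : z ^ 2 ≤ H := by exact_mod_cast h5
    exact (Nat.le_self_pow (by norm_num) z).trans h6
  -- Chebyshev
  have hsub : (TH892.box j H).filter (fun c => (∀ p : ℕ, p.Prime → p ≤ z → rho (pol c) p ≠ p) ∧
      SS z (pol c) < (1 / (w : ℝ)) ^ w * Real.exp (-(1 + (j : ℝ) ^ 2))) ⊆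
      (TH892.box j H).filter (fun c => 1 ≤ Yc w z (pol c)) := by
    intro c hc
    obtain ⟨hc1, hc2, hc3⟩ := mem_filter.1 hc
    refine mem_filter.2 ⟨hc1, ?_⟩
    by_contra hcon
    push Not at hcon
    have h5 := SS_low j w z hw2 (pol c) (pol_natDegree_le c) hc2
    have h6 : (1 / (w : ℝ)) ^ w * Real.exp (-(1 + (j : ℝ) ^ 2)) ≤
        (1 / (w : ℝ)) ^ w * Real.exp (-(Yc w z (pol c) + (j : ℝ) ^ 2)) := by
      refine mul_le_mul_of_nonneg_left (Real.exp_le_exp.2 ?_) (by positivity)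
      linarith
    linarith
  have h5 : (((TH892.box j H).filter (fun c => 1 ≤ Yc w z (pol c))).card : ℝ) ≤
      ∑ c ∈ TH892.box j H, Yc w z (pol c) ^ 2 := by
    rw [card_filter]
    push_cast
    refine sum_le_sum fun c _ => ?_
    split_ifs with h
    · nlinarith
    · positivity
  have h6 := second j H hj w z hw1 hzH
  have h7 := card_bx j H hj
  have h8 : 3 * ((tb j H).card : ℝ) * (z : ℝ) ^ 2 ≤ η / 2 * (TH892.box j H).card := by
    rw [h7]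
    have hT : (0 : ℝ) ≤ (tb j H).card := Nat.cast_nonneg _
    have h9 : 3 * (z : ℝ) ^ 2 ≤ η / 2 * (2 * H + 1) := by nlinarith
    calc 3 * ((tb j H).card : ℝ) * (z : ℝ) ^ 2 = (tb j H).card * (3 * (z : ℝ) ^ 2) := by ring
      _ ≤ (tb j H).card * (η / 2 * (2 * H + 1)) := mul_le_mul_of_nonneg_left h9 hT
      _ = _ := by ring
  have h9 : (2 * (j : ℝ) + 5) * ((TH892.box j H).card : ℝ) / w ≤
      η / 2 * (TH892.box j H).card := by
    have := mul_le_mul_of_nonneg_right hwr (Nat.cast_nonneg (TH892.box j H).card)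
    calc _ = (2 * (j : ℝ) + 5) / w * ((TH892.box j H).card : ℝ) := by ring
      _ ≤ _ := this
  have h10 : (((TH892.box j H).filter (fun c =>
      (∀ p : ℕ, p.Prime → p ≤ z → rho (pol c) p ≠ p) ∧
      SS z (pol c) < (1 / (w : ℝ)) ^ w * Real.exp (-(1 + (j : ℝ) ^ 2)))).card : ℝ) ≤
      (((TH892.box j H).filter (fun c => 1 ≤ Yc w z (pol c))).card : ℝ) := by
    exact_mod_cast card_le_card hsub
  linarith

end Pool.Agent.Y514.LW
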