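import Pool.Agent.Y871.LW.StmB

/-!
# Project LW, job LT: counting lemmas
-/

set_option autoImplicit false

open Finset

namespace Pool.Agent.Y514.LW

/-- integers of an interval in a residue class -/
theorem cnt (a b : ℤ) (hab : a ≤ b + 1) (r : ℕ) (hr : 0 < r) (v : ℤ) :
    (((Icc a b).filter (fun x => (r : ℤ) ∣ x + v)).card : ℝ) ≤ ((b : ℝ) + 1 - a) / r + 1 ∧
      ((b : ℝ) + 1 - a) / r - 1 ≤ (((Icc a b).filter (fun x => (r : ℤ) ∣ x + v)).card : ℝ) := by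
  have h1 : (Icc a b).filter (fun x => (r : ℤ) ∣ x + v) =
      (Ico a (b + 1)).filter (fun x => x ≡ -v [ZMOD (r : ℤ)]) := by
    ext x
    rw [mem_filter, mem_filter, mem_Icc, mem_Ico, Int.modEq_iff_dvd]
    have e : -v - x = -(x + v) := by ring
    rw [e, dvd_neg]
    constructor
    · rintro ⟨⟨h2, h3⟩, h4⟩
      exact ⟨⟨h2, by omega⟩, h4⟩
    · rintro ⟨⟨h2, h3⟩, h4⟩
      exact ⟨⟨h2, by omega⟩, h4⟩
  rw [h1]
  have hr' : (0 : ℤ) < r := by exact_mod_cast hr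
  have h2 := Int.Ico_filter_modEq_card a (b + 1) hr' (-v)
  set N := ((Ico a (b + 1)).filter (fun x => x ≡ -v [ZMOD (r : ℤ)])).card with hN
  set α : ℚ := (((b + 1 : ℤ) : ℚ) - ((-v : ℤ) : ℚ)) / ((r : ℤ) : ℚ) with hα
  set β : ℚ := ((a : ℚ) - ((-v : ℤ) : ℚ)) / ((r : ℤ) : ℚ) with hβ
  have hrq : (0 : ℚ) < r := by exact_mod_cast hr
  have e1 : α - β = ((b : ℚ) + 1 - a) / r := by
    rw [hα, hβ]
    push_cast
    field_simp
    ring
  have h3 : ((N : ℤ) : ℚ) ≤ ((b : ℚ) + 1 - a) / r + 1 ∧ ((b : ℚ) + 1 - a) / r - 1 ≤ ((N : ℤ) : ℚ) := by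
    rw [h2]
    have g1 := Int.le_ceil α
    have g2 := Int.ceil_lt_add_one α
    have g3 := Int.le_ceil β
    have g4 := Int.ceil_lt_add_one β
    have hab' : (a : ℚ) ≤ b + 1 := by exact_mod_cast hab
    have g5 : 0 ≤ ((b : ℚ) + 1 - a) / r := div_nonneg (by linarith) hrq.le
    push_cast
    constructor
    · refine max_le ?_ (by linarith)
      linarith
    · refine le_trans ?_ (le_max_left _ _)
      linarith
  constructor
  · have := h3.1
    have h4 : (((N : ℤ) : ℚ) : ℝ) ≤ ((((b : ℚ) + 1 - a) / r + 1 : ℚ) : ℝ) := by exact_mod_cast this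
    push_cast at h4
    exact h4
  · have := h3.2
    have h4 : ((((b : ℚ) + 1 - a) / r - 1 : ℚ) : ℝ) ≤ (((N : ℤ) : ℚ) : ℝ) := by exact_mod_cast this
    push_cast at h4
    exact h4

/-- the number of solutions of `x + g k = 0` modulo `p` -/
def Rg (g : ℕ → ℤ) (p : ℕ) (x : ℤ) : ℕ := ((range p).filter (fun k => (p : ℤ) ∣ x + g k)).card

theorem Rg_eq (g : ℕ → ℤ) (p : ℕ) (x : ℤ) :
    (Rg g p x : ℝ) = ∑ k ∈ range p, if (p : ℤ) ∣ x + g k then (1 : ℝ) else 0 := by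
  unfold Rg
  rw [card_filter]
  push_cast
  rfl

theorem sum_R (H p : ℕ) (hp : 0 < p) (g : ℕ → ℤ) :
    ∑ x ∈ Icc (-(H : ℤ)) H, (Rg g p x : ℝ) ≤ (2 * H + 1) + p ∧
      (2 * H + 1 : ℝ) - p ≤ ∑ x ∈ Icc (-(H : ℤ)) H, (Rg g p x : ℝ) := by
  have h1 : ∑ x ∈ Icc (-(H : ℤ)) H, (Rg g p x : ℝ) = ∑ k ∈ range p,
      (((Icc (-(H : ℤ)) H).filter (fun x => (p : ℤ) ∣ x + g k)).card : ℝ) := by
    rw [sum_congr rfl fun x _ => Rg_eq g p x, sum_comm]
    refine sum_congr rfl fun k _ => ?_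
    rw [card_filter]
    push_cast
    rfl
  have hp0 : (0 : ℝ) < p := by exact_mod_cast hp
  rw [h1]
  have h2 : ∀ k ∈ range p, (((Icc (-(H : ℤ)) H).filter (fun x => (p : ℤ) ∣ x + g k)).card : ℝ) ≤
      (2 * H + 1) / p + 1 ∧ (2 * H + 1 : ℝ) / p - 1 ≤
      (((Icc (-(H : ℤ)) H).filter (fun x => (p : ℤ) ∣ x + g k)).card : ℝ) := by
    intro k _
    have := cnt (-(H : ℤ)) H (by omega) p hp (g k)
    push_cast at this
    have e : (H : ℝ) + 1 - -(H : ℝ) = 2 * H + 1 := by ring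
    rw [e] at this
    exact this
  constructor
  · calc _ ≤ ∑ k ∈ range p, ((2 * H + 1 : ℝ) / p + 1) := sum_le_sum fun k hk => (h2 k hk).1
      _ = (2 * H + 1) + p := by
        rw [sum_const, card_range, nsmul_eq_mul]
        field_simp
  · refine le_trans (le_of_eq ?_) (sum_le_sum fun k hk => (h2 k hk).2)
    rw [sum_const, card_range, nsmul_eq_mul]
    field_simp

theorem sum_RR (H p q : ℕ) (hp : 0 < p) (hq : 0 < q) (hpq : Nat.Coprime p q) (g : ℕ → ℤ) :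
    ∑ x ∈ Icc (-(H : ℤ)) H, (Rg g p x : ℝ) * Rg g q x ≤ (2 * H + 1) + p * q := by
  have h1 : ∑ x ∈ Icc (-(H : ℤ)) H, (Rg g p x : ℝ) * Rg g q x = ∑ k ∈ range p, ∑ l ∈ range q,
      (((Icc (-(H : ℤ)) H).filter (fun x => (p : ℤ) ∣ x + g k ∧ (q : ℤ) ∣ x + g l)).card : ℝ) := by
    have e1 : ∀ x ∈ Icc (-(H : ℤ)) H, (Rg g p x : ℝ) * Rg g q x =
        ∑ k ∈ range p, ∑ l ∈ range q,
          if (p : ℤ) ∣ x + g k ∧ (q : ℤ) ∣ x + g l then (1 : ℝ) else 0 := by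
      intro x _
      rw [Rg_eq, Rg_eq, sum_mul_sum]
      refine sum_congr rfl fun k _ => sum_congr rfl fun l _ => ?_
      by_cases h1 : (p : ℤ) ∣ x + g k <;> by_cases h2 : (q : ℤ) ∣ x + g l <;> simp [h1, h2]
    rw [sum_congr rfl e1, sum_comm]
    refine sum_congr rfl fun k _ => ?_
    rw [sum_comm]
    refine sum_congr rfl fun l _ => ?_
    rw [card_filter]
    push_cast
    rfl
  have hp0 : (0 : ℝ) < p := by exact_mod_cast hp
  have hq0 : (0 : ℝ) < q := by exact_mod_cast hq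
  rw [h1]
  have h2 : ∀ k l : ℕ,
      (((Icc (-(H : ℤ)) H).filter (fun x => (p : ℤ) ∣ x + g k ∧ (q : ℤ) ∣ x + g l)).card : ℝ) ≤
      (2 * H + 1) / (p * q) + 1 := by
    intro k l
    rcases eq_empty_or_nonempty
      ((Icc (-(H : ℤ)) H).filter (fun x => (p : ℤ) ∣ x + g k ∧ (q : ℤ) ∣ x + g l)) with h | h
    · rw [h]
      simp only [card_empty, Nat.cast_zero]
      positivity
    · obtain ⟨x0, hx0⟩ := h
      have hx1 := (mem_filter.1 hx0).2
      have hsub : (Icc (-(H : ℤ)) H).filter (fun x => (p : ℤ) ∣ x + g k ∧ (q : ℤ) ∣ x + g l) ⊆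
          (Icc (-(H : ℤ)) H).filter (fun x => ((p * q : ℕ) : ℤ) ∣ x + (-x0)) := by
        intro x hx
        obtain ⟨hx2, hx3, hx4⟩ := mem_filter.1 hx
        refine mem_filter.2 ⟨hx2, ?_⟩
        have hco : IsCoprime (p : ℤ) (q : ℤ) := Nat.isCoprime_iff_coprime.2 hpq
        push_cast
        refine hco.mul_dvd ?_ ?_
        · have := dvd_sub hx3 hx1.1
          have e : x + g k - (x0 + g k) = x + -x0 := by ring
          rwa [e] at this
        · have := dvd_sub hx4 hx1.2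
          have e : x + g l - (x0 + g l) = x + -x0 := by ring
          rwa [e] at this
      have h3 := (cnt (-(H : ℤ)) H (by omega) (p * q) (Nat.mul_pos hp hq) (-x0)).1
      have h4 : (((Icc (-(H : ℤ)) H).filter
          (fun x => (p : ℤ) ∣ x + g k ∧ (q : ℤ) ∣ x + g l)).card : ℝ) ≤
          (((Icc (-(H : ℤ)) H).filter (fun x => ((p * q : ℕ) : ℤ) ∣ x + (-x0))).card : ℝ) := by
        exact_mod_cast card_le_card hsub
      refine h4.trans (h3.trans (le_of_eq ?_))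
      push_cast
      ring
  calc _ ≤ ∑ k ∈ range p, ∑ l ∈ range q, ((2 * H + 1 : ℝ) / (p * q) + 1) :=
        sum_le_sum fun k _ => sum_le_sum fun l _ => h2 k l
    _ = (2 * H + 1) + p * q := by
      rw [sum_const, sum_const, card_range, card_range, nsmul_eq_mul, nsmul_eq_mul]
      field_simp

theorem card_sym (H : ℕ) : ((Icc (-(H : ℤ)) H).card : ℝ) = 2 * H + 1 := by
  rw [Int.card_Icc]
  have : (H : ℤ) + 1 - -(H : ℤ) = ((2 * H + 1 : ℕ) : ℤ) := by push_cast; ring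
  rw [this, Int.toNat_natCast]
  push_cast
  ring

/-- the correlation of two primes in a fibre -/
theorem fib (H p q : ℕ) (hp : 1 ≤ p) (hq : 1 ≤ q) (hpq : Nat.Coprime p q) (g : ℕ → ℤ) :
    ∑ x ∈ Icc (-(H : ℤ)) H, ((Rg g p x : ℝ) - 1) * ((Rg g q x : ℝ) - 1) ≤ 3 * (p * q) := by
  have e : ∑ x ∈ Icc (-(H : ℤ)) H, ((Rg g p x : ℝ) - 1) * ((Rg g q x : ℝ) - 1) =
      ∑ x ∈ Icc (-(H : ℤ)) H, (Rg g p x : ℝ) * Rg g q x -
        ∑ x ∈ Icc (-(H : ℤ)) H, (Rg g p x : ℝ) - ∑ x ∈ Icc (-(H : ℤ)) H, (Rg g q x : ℝ) +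
        (2 * H + 1) := by
    have e0 : (2 * H + 1 : ℝ) = ∑ x ∈ Icc (-(H : ℤ)) H, (1 : ℝ) := by
      rw [sum_const, nsmul_eq_mul, card_sym, mul_one]
    rw [e0, ← sum_sub_distrib, ← sum_sub_distrib, ← sum_add_distrib]
    exact sum_congr rfl fun x _ => by ring
  rw [e]
  have h1 := sum_RR H p q hp hq hpq g
  have h2 := (sum_R H p hp g).2
  have h3 := (sum_R H q hq g).2
  have hp1 : (1 : ℝ) ≤ p := by exact_mod_cast hp
  have hq1 : (1 : ℝ) ≤ q := by exact_mod_cast hq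
  nlinarith

end Pool.Agent.Y514.LW
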