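import Pool.Agent.Y514.LW.LtA

/-!
# Project LW, job LT: second moment over the box
-/

set_option autoImplicit false

open Finset

namespace Pool.Agent.Y514.LW

open Polynomial
open Pool.Agent.TH892 (pol pol_eval pol_coeff pol_natDegree_le)
open Pool.Agent.H300R2.BH (SS rho)


/-- the coefficients of index at least one -/
noncomputable def tb (j H : ℕ) : Finset (Fin j → ℤ) :=
  Fintype.piFinset (fun i => if (i : ℕ) + 1 = j then Icc 1 (H : ℤ) else Icc (-(H : ℤ)) H)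

theorem mem_box_iff (j H : ℕ) (hj : 1 ≤ j) (c : Fin (j + 1) → ℤ) :
    c ∈ TH892.box j H ↔ c 0 ∈ Icc (-(H : ℤ)) H ∧ Fin.tail c ∈ tb j H := by
  unfold TH892.box tb
  rw [Fin.mem_piFinset_iff_zero_tail]
  have h0 : ((0 : Fin (j + 1)) : ℕ) ≠ j := by
    rw [Fin.val_zero]
    omega
  rw [if_neg h0, Fintype.mem_piFinset, Fintype.mem_piFinset]
  refine and_congr Iff.rfl (forall_congr' fun i => ?_)
  unfold Fin.tail
  simp only [Fin.val_succ]

theorem sum_bx (j H : ℕ) (hj : 1 ≤ j) (G : (Fin (j + 1) → ℤ) → ℝ) :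
    ∑ c ∈ TH892.box j H, G c = ∑ d ∈ tb j H, ∑ x ∈ Icc (-(H : ℤ)) H,
      G (Fin.cons (α := fun _ => ℤ) x d) := by
  rw [← sum_product']
  symm
  refine sum_nbij' (fun p : (Fin j → ℤ) × ℤ => (Fin.cons (α := fun _ => ℤ) p.2 p.1 : Fin (j + 1) → ℤ))
    (fun c => (Fin.tail c, c 0)) ?_ ?_ ?_ ?_ ?_
  · rintro ⟨d, x⟩ h
    rw [mem_product] at h
    rw [mem_box_iff j H hj]
    simp only [Fin.cons_zero, Fin.tail_cons]
    exact ⟨h.2, h.1⟩
  · intro c hc
    rw [mem_box_iff j H hj] at hc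
    rw [mem_product]
    exact ⟨hc.2, hc.1⟩
  · rintro ⟨d, x⟩ _
    simp only [Fin.cons_zero, Fin.tail_cons]
  · intro c _
    exact Fin.cons_self_tail c
  · intro p _
    rfl

theorem card_bx (j H : ℕ) (hj : 1 ≤ j) :
    ((TH892.box j H).card : ℝ) = (tb j H).card * (2 * H + 1) := by
  have h := sum_bx j H hj (fun _ => 1)
  rw [sum_const, nsmul_eq_mul, mul_one] at h
  rw [h]
  have : ∀ d ∈ tb j H, ∑ x ∈ Icc (-(H : ℤ)) H, (1 : ℝ) = 2 * H + 1 := by
    intro d _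
    rw [sum_const, nsmul_eq_mul, card_sym, mul_one]
  rw [sum_congr rfl this, sum_const, nsmul_eq_mul]

/-- the values without the constant coefficient -/
def gd {j : ℕ} (d : Fin j → ℤ) (k : ℕ) : ℤ := ∑ i : Fin j, d i * (k : ℤ) ^ ((i : ℕ) + 1)

theorem rho_cons {j : ℕ} (d : Fin j → ℤ) (x : ℤ) (p : ℕ) :
    rho (pol (Fin.cons (α := fun _ => ℤ) x d : Fin (j + 1) → ℤ)) p = Rg (gd d) p x := by
  unfold rho Rg
  congr 1
  refine filter_congr fun k _ => ?_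
  rw [pol_eval, Fin.sum_univ_succ]
  simp only [Fin.cons_zero, Fin.cons_succ, Fin.val_zero, pow_zero, mul_one, Fin.val_succ]
  rfl

theorem off (j H : ℕ) (hj : 1 ≤ j) (p q : ℕ) (hp : 1 ≤ p) (hq : 1 ≤ q) (hpq : Nat.Coprime p q) :
    ∑ c ∈ TH892.box j H, ((rho (pol c) p : ℝ) - 1) * ((rho (pol c) q : ℝ) - 1) ≤
      (tb j H).card * (3 * (p * q)) := by
  rw [sum_bx j H hj]
  calc _ ≤ ∑ d ∈ tb j H, (3 * (p * q) : ℝ) := by
        refine sum_le_sum fun d _ => ?_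
        simp only [rho_cons]
        exact fib H p q hp hq hpq (gd d)
    _ = (tb j H).card * (3 * (p * q)) := by rw [sum_const, nsmul_eq_mul]

theorem sum_rho (j H : ℕ) (hj : 1 ≤ j) (p : ℕ) (hp : 1 ≤ p) (hpH : p ≤ H) :
    ∑ c ∈ TH892.box j H, (rho (pol c) p : ℝ) ≤ 2 * (TH892.box j H).card := by
  rw [sum_bx j H hj, card_bx j H hj]
  have hpH' : (p : ℝ) ≤ H := by exact_mod_cast hpH
  calc _ ≤ ∑ d ∈ tb j H, (2 * (2 * H + 1) : ℝ) := by
        refine sum_le_sum fun d _ => ?_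
        simp only [rho_cons]
        have := (sum_R H p hp (gd d)).1
        linarith
    _ = 2 * ((tb j H).card * (2 * H + 1)) := by
        rw [sum_const, nsmul_eq_mul]
        ring

theorem cnt2 (a b : ℤ) (p : ℕ) (hp : 1 ≤ p) (hab : (p : ℤ) ≤ b + 1 - a) :
    (((Icc a b).filter (fun x => (p : ℤ) ∣ x)).card : ℝ) ≤ 2 / p * (Icc a b).card := by
  have h1 := (cnt a b (by omega) p hp 0).1
  simp only [add_zero] at h1
  have h2 : ((Icc a b).card : ℝ) = (b : ℝ) + 1 - a := by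
    rw [Int.card_Icc]
    have : ((b + 1 - a).toNat : ℤ) = b + 1 - a := Int.toNat_of_nonneg (by omega)
    have h3 : (((b + 1 - a).toNat : ℤ) : ℝ) = ((b + 1 - a : ℤ) : ℝ) := by rw [this]
    push_cast at h3
    exact h3
  rw [h2]
  have hp0 : (0 : ℝ) < p := by exact_mod_cast hp
  have h3 : (p : ℝ) ≤ (b : ℝ) + 1 - a := by exact_mod_cast hab
  have h4 : 1 ≤ ((b : ℝ) + 1 - a) / p := by rw [le_div_iff₀ hp0]; linarith
  have e : 2 / (p : ℝ) * ((b : ℝ) + 1 - a) = 2 * (((b : ℝ) + 1 - a) / p) := by ring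
  rw [e]
  linarith

theorem all_dvd (j H : ℕ) (hj : 1 ≤ j) (p : ℕ) (hp : 2 ≤ p) (hpH : p ≤ H) :
    (p : ℝ) ^ 2 * (((TH892.box j H).filter (fun c => ∀ i, (p : ℤ) ∣ c i)).card : ℝ) ≤
      4 * (TH892.box j H).card := by
  set B : Fin (j + 1) → Finset ℤ := fun i => if (i : ℕ) = j then Icc 1 (H : ℤ) else
    Icc (-(H : ℤ)) H with hB
  have h1 : (TH892.box j H).filter (fun c => ∀ i, (p : ℤ) ∣ c i) =
      Fintype.piFinset (fun i => (B i).filter (fun x => (p : ℤ) ∣ x)) := by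
    ext c
    unfold TH892.box
    rw [mem_filter, Fintype.mem_piFinset, Fintype.mem_piFinset, ← forall_and]
    exact forall_congr' fun i => by rw [mem_filter]
  have h2 : (TH892.box j H).card = ∏ i, (B i).card := by
    unfold TH892.box
    rw [Fintype.card_piFinset]
  rw [h1, Fintype.card_piFinset, h2]
  have hp2 : (2 : ℝ) ≤ p := by exact_mod_cast hp
  have hp0 : (0 : ℝ) < p := by linarith
  have h3 : ∏ i, (((B i).filter (fun x => (p : ℤ) ∣ x)).card : ℝ) ≤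
      ∏ i : Fin (j + 1), (2 / p * ((B i).card : ℝ)) := by
    refine prod_le_prod (fun i _ => Nat.cast_nonneg _) fun i _ => ?_
    simp only [hB]
    split_ifs
    · exact cnt2 _ _ p (by omega) (by omega)
    · exact cnt2 _ _ p (by omega) (by omega)
  rw [prod_mul_distrib, prod_const, card_univ, Fintype.card_fin] at h3
  have h4 : (2 / (p : ℝ)) ^ (j + 1) ≤ (2 / (p : ℝ)) ^ 2 := by
    refine pow_le_pow_of_le_one (by positivity) ?_ (by omega)
    rw [div_le_one hp0]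
    exact hp2
  have h5 : 0 ≤ ∏ i, ((B i).card : ℝ) := prod_nonneg fun i _ => Nat.cast_nonneg _
  push_cast
  calc (p : ℝ) ^ 2 * ∏ i, (((B i).filter (fun x => (p : ℤ) ∣ x)).card : ℝ)
      ≤ (p : ℝ) ^ 2 * ((2 / (p : ℝ)) ^ 2 * ∏ i, ((B i).card : ℝ)) := by
        refine mul_le_mul_of_nonneg_left (h3.trans ?_) (by positivity)
        exact mul_le_mul_of_nonneg_right h4 h5
    _ = 4 * ∏ i, ((B i).card : ℝ) := by
        have e : (p : ℝ) ^ 2 * (2 / (p : ℝ)) ^ 2 = 4 := by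
          rw [div_pow, mul_div_assoc', mul_comm, mul_div_assoc, div_self (by positivity)]
          norm_num
        rw [← mul_assoc, e]

theorem all_of_large {j : ℕ} (c : Fin (j + 1) → ℤ) (p : ℕ) (hp : p.Prime)
    (h : ¬ ∀ i, (p : ℤ) ∣ c i) : rho (pol c) p ≤ j := by
  refine (Pool.Agent.H415R2.BH.rho_le_deg (pol c) p hp ?_).trans (pol_natDegree_le c)
  intro h0
  apply h
  intro i
  have h1 := congrArg (fun P => P.coeff (i : ℕ)) h0
  simp only [coeff_map, coeff_zero, pol_coeff] at h1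
  exact (ZMod.intCast_zmod_eq_zero_iff_dvd _ _).1 h1

theorem diagB (j H : ℕ) (hj : 1 ≤ j) (p : ℕ) (hp : p.Prime) (hpH : p ≤ H) :
    ∑ c ∈ TH892.box j H, ((rho (pol c) p : ℝ) - 1) ^ 2 ≤ (2 * (j : ℝ) + 5) * (TH892.box j H).card := by
  have h1 : ∀ c ∈ TH892.box j H, ((rho (pol c) p : ℝ) - 1) ^ 2 ≤ j * (rho (pol c) p : ℝ) + 1 +
      (p : ℝ) ^ 2 * (if ∀ i, (p : ℤ) ∣ c i then 1 else 0) := by
    intro c _
    have hr : (0 : ℝ) ≤ rho (pol c) p := Nat.cast_nonneg _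
    have hp1 : (1 : ℝ) ≤ p := by exact_mod_cast hp.one_le
    have hj0 : (0 : ℝ) ≤ j := Nat.cast_nonneg _
    split_ifs with h
    · have h2 : (rho (pol c) p : ℝ) ≤ p := by
        exact_mod_cast Pool.Agent.H338R2.BH.rho_le_p (pol c) p
      have h3 : 0 ≤ (j : ℝ) * rho (pol c) p := mul_nonneg hj0 hr
      have h4 : ((rho (pol c) p : ℝ) - 1) ^ 2 ≤ (p : ℝ) ^ 2 :=
        sq_le_sq' (by linarith) (by linarith)
      linarith
    · have h2 : (rho (pol c) p : ℝ) ≤ j := by exact_mod_cast all_of_large c p hp h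
      have h3 := mul_le_mul_of_nonneg_right h2 hr
      have h4 : ((rho (pol c) p : ℝ) - 1) ^ 2 =
        (rho (pol c) p : ℝ) * rho (pol c) p - 2 * rho (pol c) p + 1 := by ring
      rw [h4]
      linarith
  refine (sum_le_sum h1).trans ?_
  rw [sum_add_distrib, sum_add_distrib, ← mul_sum, ← mul_sum, sum_const, nsmul_eq_mul, mul_one,
    sum_boole]
  have h2 := sum_rho j H hj p hp.one_le hpH
  have h3 := all_dvd j H hj p hp.two_le hpH
  have hj0 : (0 : ℝ) ≤ j := Nat.cast_nonneg _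
  have h4 := mul_le_mul_of_nonneg_left h2 hj0
  linarith

/-- the centred sum -/
noncomputable def Yc (w z : ℕ) (F : ℤ[X]) : ℝ :=
  ∑ p ∈ (Ioc w z).filter Nat.Prime, ((rho F p : ℝ) - 1) / p

theorem sum_sq (w z : ℕ) (hw : 1 ≤ w) :
    ∑ p ∈ (Ioc w z).filter Nat.Prime, (1 : ℝ) / (p : ℝ) ^ 2 ≤ 1 / w := by
  have h1 : ∑ p ∈ (Ioc w z).filter Nat.Prime, (1 : ℝ) / (p : ℝ) ^ 2 ≤
      ∑ p ∈ Ioc w z, (1 : ℝ) / (p : ℝ) ^ 2 :=
    sum_le_sum_of_subset_of_nonneg (filter_subset _ _) fun _ _ _ => by positivity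
  refine h1.trans ?_
  rcases Nat.lt_or_ge z w with h | h
  · rw [Ioc_eq_empty (by omega), sum_empty]
    positivity
  · have h2 := sum_Ioc_inv_sq_le_sub (α := ℝ) (by omega : w ≠ 0) h
    simp only [one_div]
    refine h2.trans ?_
    have : (0 : ℝ) ≤ (z : ℝ)⁻¹ := by positivity
    linarith

theorem second (j H : ℕ) (hj : 1 ≤ j) (w z : ℕ) (hw : 1 ≤ w) (hz : z ≤ H) :
    ∑ c ∈ TH892.box j H, Yc w z (pol c) ^ 2 ≤
      (2 * (j : ℝ) + 5) * (TH892.box j H).card / w + 3 * ((tb j H).card : ℝ) * (z : ℝ) ^ 2 := by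
  set Q := (Ioc w z).filter Nat.Prime with hQ
  have e1 : ∑ c ∈ TH892.box j H, Yc w z (pol c) ^ 2 = ∑ p ∈ Q, ∑ q ∈ Q, 1 / ((p : ℝ) * q) *
      ∑ c ∈ TH892.box j H, ((rho (pol c) p : ℝ) - 1) * ((rho (pol c) q : ℝ) - 1) := by
    have e2 : ∀ c ∈ TH892.box j H, Yc w z (pol c) ^ 2 = ∑ p ∈ Q, ∑ q ∈ Q, 1 / ((p : ℝ) * q) *
        (((rho (pol c) p : ℝ) - 1) * ((rho (pol c) q : ℝ) - 1)) := by
      intro c _
      unfold Yc
      rw [sq, sum_mul_sum]
      refine sum_congr rfl fun p _ => sum_congr rfl fun q _ => ?_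
      rw [div_mul_div_comm]
      ring
    rw [sum_congr rfl e2, sum_comm]
    refine sum_congr rfl fun p _ => ?_
    rw [sum_comm]
    refine sum_congr rfl fun q _ => ?_
    rw [mul_sum]
  rw [e1]
  have hQm : ∀ p ∈ Q, p.Prime ∧ p ≤ z := by
    intro p hp
    rw [hQ, mem_filter, mem_Ioc] at hp
    exact ⟨hp.2, hp.1.2⟩
  have h1 : ∀ p ∈ Q, ∀ q ∈ Q, 1 / ((p : ℝ) * q) *
      ∑ c ∈ TH892.box j H, ((rho (pol c) p : ℝ) - 1) * ((rho (pol c) q : ℝ) - 1) ≤
      (if p = q then (2 * (j : ℝ) + 5) * (TH892.box j H).card * (1 / (p : ℝ) ^ 2) else 0) +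
        3 * ((tb j H).card : ℝ) := by
    intro p hp q hq
    obtain ⟨hp1, hp2⟩ := hQm p hp
    obtain ⟨hq1, hq2⟩ := hQm q hq
    have hp0 : (0 : ℝ) < p := by exact_mod_cast hp1.pos
    have hq0 : (0 : ℝ) < q := by exact_mod_cast hq1.pos
    have hT : (0 : ℝ) ≤ 3 * ((tb j H).card : ℝ) := by positivity
    split_ifs with h
    · subst h
      have h2 := diagB j H hj p hp1 (hp2.trans hz)
      have e : ∑ c ∈ TH892.box j H, ((rho (pol c) p : ℝ) - 1) * ((rho (pol c) p : ℝ) - 1) =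
          ∑ c ∈ TH892.box j H, ((rho (pol c) p : ℝ) - 1) ^ 2 := sum_congr rfl fun c _ => (sq _).symm
      rw [e]
      have h3 : 1 / ((p : ℝ) * p) * ∑ c ∈ TH892.box j H, ((rho (pol c) p : ℝ) - 1) ^ 2 ≤
          1 / ((p : ℝ) * p) * ((2 * (j : ℝ) + 5) * (TH892.box j H).card) :=
        mul_le_mul_of_nonneg_left h2 (by positivity)
      have e2 : 1 / ((p : ℝ) * p) * ((2 * (j : ℝ) + 5) * (TH892.box j H).card) =
          (2 * (j : ℝ) + 5) * (TH892.box j H).card * (1 / (p : ℝ) ^ 2) := by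
        rw [sq]; ring
      rw [e2] at h3
      linarith
    · have h2 := off j H hj p q hp1.one_le hq1.one_le ((Nat.coprime_primes hp1 hq1).2 h)
      have h3 : 1 / ((p : ℝ) * q) *
          ∑ c ∈ TH892.box j H, ((rho (pol c) p : ℝ) - 1) * ((rho (pol c) q : ℝ) - 1) ≤
          1 / ((p : ℝ) * q) * ((tb j H).card * (3 * (p * q))) :=
        mul_le_mul_of_nonneg_left h2 (by positivity)
      have e2 : 1 / ((p : ℝ) * q) * ((tb j H).card * (3 * (p * q))) = 3 * ((tb j H).card : ℝ) := by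
        field_simp
      rw [e2] at h3
      linarith
  refine (sum_le_sum fun p hp => sum_le_sum fun q hq => h1 p hp q hq).trans ?_
  have h2 : ∑ p ∈ Q, ∑ q ∈ Q, ((if p = q then (2 * (j : ℝ) + 5) * ((TH892.box j H).card : ℝ) *
      (1 / (p : ℝ) ^ 2) else 0) + 3 * ((tb j H).card : ℝ)) =
      (2 * (j : ℝ) + 5) * (TH892.box j H).card * ∑ p ∈ Q, 1 / (p : ℝ) ^ 2 +
        3 * ((tb j H).card : ℝ) * (Q.card : ℝ) ^ 2 := by
    have h3 : ∀ p ∈ Q, ∑ q ∈ Q, ((if p = q then (2 * (j : ℝ) + 5) * ((TH892.box j H).card : ℝ) *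
        (1 / (p : ℝ) ^ 2) else 0) + 3 * ((tb j H).card : ℝ)) =
        (2 * (j : ℝ) + 5) * (TH892.box j H).card * (1 / (p : ℝ) ^ 2) + 3 * ((tb j H).card : ℝ) * Q.card := by
      intro p hp
      rw [sum_add_distrib, sum_ite_eq, if_pos hp, sum_const, nsmul_eq_mul]
      ring
    rw [sum_congr rfl h3, sum_add_distrib, ← mul_sum, sum_const, nsmul_eq_mul]
    ring
  rw [h2]
  have h3 : (Q.card : ℝ) ≤ z := by
    have : Q.card ≤ z := by
      rw [hQ]
      refine (card_filter_le _ _).trans ?_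
      rw [Nat.card_Ioc]
      omega
    exact_mod_cast this
  have h4 := sum_sq w z hw
  have h5 : (2 * (j : ℝ) + 5) * ((TH892.box j H).card : ℝ) * ∑ p ∈ Q, 1 / (p : ℝ) ^ 2 ≤
      (2 * (j : ℝ) + 5) * (TH892.box j H).card * (1 / w) := mul_le_mul_of_nonneg_left h4 (by positivity)
  have h6 : 3 * ((tb j H).card : ℝ) * (Q.card : ℝ) ^ 2 ≤ 3 * ((tb j H).card : ℝ) * (z : ℝ) ^ 2 :=
    mul_le_mul_of_nonneg_left (pow_le_pow_left₀ (Nat.cast_nonneg _) h3 2) (by positivity)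
  calc _ ≤ (2 * (j : ℝ) + 5) * ((TH892.box j H).card : ℝ) * (1 / w) + 3 * ((tb j H).card : ℝ) * (z : ℝ) ^ 2 :=
        add_le_add h5 h6
    _ = _ := by ring

end Pool.Agent.Y514.LW
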